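import Mathlib

namespace Pool.Agent.H.MP_37d573_pr

open Filter Topology Finset

lemma tele (k : ℕ) (hk : 1 ≤ k) (m : ℕ) :
    ∑ n ∈ range m, (if k ≤ n then 1 / ((n : ℝ) * (n + 1)) else 0) ≤ 1 / k := by
  have h : ∀ m, ∑ n ∈ range m, (if k ≤ n then 1 / ((n : ℝ) * (n + 1)) else 0)
      = 1 / k - 1 / ((max k m : ℕ) : ℝ) := by
    intro m
    induction m with
    | zero => simp
    | succ m ih =>
      rw [sum_range_succ, ih]
      by_cases hkm : k ≤ m
      · rw [if_pos hkm, max_eq_right hkm, max_eq_right (by omega)]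
        have : (0 : ℝ) < m := by exact_mod_cast (by omega : 0 < m)
        push_cast; field_simp; ring
      · rw [if_neg hkm, max_eq_left (by omega), max_eq_left (by omega)]; simp
  rw [h]
  have : (0 : ℝ) ≤ 1 / ((max k m : ℕ) : ℝ) := by positivity
  linarith

/-- The analytic core of the argument. -/
lemma core (F G : ℝ → ℝ → ℝ) (p : ℕ → ℝ → ℝ → ℝ) (K : ℝ) (hK : 0 < K)
    (hF0 : ∀ a b, 0 ≤ F a b) (hp0 : ∀ n a b, 0 ≤ p n a b)
    (hsupp : ∀ a b, b ≤ 1 → F a b = 0)
    (hrec : ∀ (n : ℕ) a b, (n : ℝ) * p n a b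
      = F (a - 1 / (n + 1)) (b - 1 / (n + 1)) - p n (a - 1 / (n + 1)) (b - 1 / (n + 1)))
    (hz : ∀ a b, p 0 a b = F a b)
    (hG : ∀ a b, HasSum (fun n : ℕ => 1 / ((n : ℝ) + 1) * p n a b) (G a b))
    (hG1 : ∀ a b, G a b ≤ b * F a b) (hG2 : ∀ a b, a * F a b ≤ G a b)
    (hc : ∀ y, 1 < y → ∀ ε, 0 < ε → ∀ᶠ h in 𝓝[>] (0 : ℝ), |F y (y + h) - F (y - h) y| ≤ ε * h)
    (hb : ∀ a b, 13 / 12 ≤ a → a ≤ b → b ≤ 2 → F a b ≤ K * (b - a))
    (hlow : ∀ M : ℕ, 1 ≤ M → 2 / 3 / (M : ℝ) ≤ F 1 (1 + 3 / M)) : False := by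
  have pz : ∀ (n : ℕ), 1 ≤ n → ∀ a b, b ≤ 1 + 1 / ((n : ℝ) + 1) → p n a b = 0 := by
    intro n hn a b hb
    have h1 := hrec n a b
    rw [hsupp _ _ (by linarith)] at h1
    have hn' : (0 : ℝ) < n := by exact_mod_cast hn
    have h2 := hp0 n (a - 1 / (n + 1)) (b - 1 / (n + 1))
    have h3 := hp0 n a b
    nlinarith
  have small : ∀ c : ℝ, 0 < c → ∀ᶠ h in 𝓝[>] (0 : ℝ), 0 < h ∧ h ≤ c := by
    intro c hc
    filter_upwards [Ioc_mem_nhdsGT hc] with h hh using hh
  have edge : ∀ (n : ℕ), 1 ≤ n → ∀ h, h ≤ 1 / ((n : ℝ) + 1) →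
      (n : ℝ) * (p n (1 + 1 / (n + 1)) (1 + 1 / (n + 1) + h)
        - p n (1 + 1 / (n + 1) - h) (1 + 1 / (n + 1))) = F 1 (1 + h) := by
    intro n hn h hh
    rw [pz n hn (1 + 1 / (n + 1) - h) _ le_rfl, sub_zero, hrec, pz n hn _ _ (by linarith)]
    simp only [add_sub_cancel_right, sub_zero]
    congr 1; ring
  have step : ∀ (n : ℕ) y h, (n : ℝ) * (p n y (y + h) - p n (y - h) y)
      = (F (y - 1 / (n + 1)) (y - 1 / (n + 1) + h) - F (y - 1 / (n + 1) - h) (y - 1 / (n + 1)))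
        - (p n (y - 1 / (n + 1)) (y - 1 / (n + 1) + h)
          - p n (y - 1 / (n + 1) - h) (y - 1 / (n + 1))) := by
    intro n y h
    rw [mul_sub, hrec, hrec, show y + h - 1 / ((n : ℝ) + 1) = y - 1 / (n + 1) + h by ring,
      show y - h - 1 / ((n : ℝ) + 1) = y - 1 / (n + 1) - h by ring]
    ring
  have ind : ∀ (n : ℕ), 1 ≤ n → ∀ (j : ℕ) y, y ≤ 1 + j * (1 / ((n : ℝ) + 1)) → ∀ ε, 0 < ε →
      ∀ᶠ h in 𝓝[>] (0 : ℝ), (n : ℝ) * |p n y (y + h) - p n (y - h) y| ≤ F 1 (1 + h) + ε * h := by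
    intro n hn
    have hn' : (1 : ℝ) ≤ n := by exact_mod_cast hn
    have hN : (0 : ℝ) < 1 / ((n : ℝ) + 1) := by positivity
    have low : ∀ y, y < 1 + 1 / ((n : ℝ) + 1) → ∀ ε, 0 < ε →
        ∀ᶠ h in 𝓝[>] (0 : ℝ), (n : ℝ) * |p n y (y + h) - p n (y - h) y|
          ≤ F 1 (1 + h) + ε * h := by
      intro y hy ε hε
      filter_upwards [small (1 + 1 / ((n : ℝ) + 1) - y) (by linarith)] with h hh
      rw [pz n hn _ _ (by linarith), pz n hn _ _ (by linarith)]
      have := hF0 1 (1 + h)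
      have := mul_pos hε hh.1
      simp only [sub_self, abs_zero, mul_zero]; linarith
    intro j
    induction j with
    | zero => intro y hy; exact low y (by simp only [Nat.cast_zero] at hy; linarith)
    | succ j ih =>
      intro y hy ε hε
      rcases lt_trichotomy y (1 + 1 / ((n : ℝ) + 1)) with h1 | h1 | h1
      · exact low y h1 ε hε
      · filter_upwards [small _ hN] with h hh
        have h2 := edge n hn h hh.2
        rw [← h1] at h2
        have := mul_pos hε hh.1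
        rw [← abs_of_nonneg (by linarith : (0 : ℝ) ≤ n), ← abs_mul, h2,
          abs_of_nonneg (hF0 _ _)]
        linarith
      · filter_upwards [ih (y - 1 / (n + 1)) (by push_cast at hy; linarith) (ε / 2) (by positivity),
          hc (y - 1 / (n + 1)) (by linarith) (ε / 2) (by positivity)] with h h2 h3
        rw [← abs_of_nonneg (by linarith : (0 : ℝ) ≤ n), ← abs_mul, step]
        refine (abs_sub _ _).trans ?_
        have h4 := abs_nonneg (p n (y - 1 / (n + 1)) (y - 1 / (n + 1) + h)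
          - p n (y - 1 / (n + 1) - h) (y - 1 / (n + 1)))
        nlinarith
  have fine : ∀ (n : ℕ), 2 ≤ n → ∀ ε, 0 < ε → ∀ᶠ h in 𝓝[>] (0 : ℝ),
      -(F 1 (1 + h) / 2 + ε * h) ≤ (n : ℝ) * (p n (3 / 2) (3 / 2 + h) - p n (3 / 2 - h) (3 / 2)) := by
    intro n hn ε hε
    have hn' : (2 : ℝ) ≤ n := by exact_mod_cast hn
    have hN : 1 / ((n : ℝ) + 1) ≤ 1 / 3 := one_div_le_one_div_of_le (by norm_num) (by linarith)
    have hN0 : (0 : ℝ) < 1 / ((n : ℝ) + 1) := by positivity
    filter_upwards [ind n (by omega) (n + 1) (3 / 2 - 1 / (n + 1))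
      (by push_cast; rw [mul_one_div_cancel (by positivity)]; linarith) ε hε,
      hc (3 / 2 - 1 / (n + 1)) (by linarith) (ε / 2) (by positivity)] with h h2 h3
    rw [step]
    have h4 := abs_nonneg (p n (3 / 2 - 1 / (n + 1)) (3 / 2 - 1 / (n + 1) + h)
      - p n (3 / 2 - 1 / (n + 1) - h) (3 / 2 - 1 / (n + 1)))
    have h5 := le_abs_self (p n (3 / 2 - 1 / (n + 1)) (3 / 2 - 1 / (n + 1) + h)
      - p n (3 / 2 - 1 / (n + 1) - h) (3 / 2 - 1 / (n + 1)))
    have h6 := (abs_le.1 h3).1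
    nlinarith
  obtain ⟨n0, hn0⟩ := exists_nat_ge (200 * K + 2)
  have hn2 : 2 ≤ n0 := by
    have : (2 : ℝ) ≤ n0 := by linarith
    exact_mod_cast this
  have all : ∀ᶠ h in 𝓝[>] (0 : ℝ), F 1 (1 + h) ≤ 1 / 5 * h := by
    have h1 : ∀ᶠ h in 𝓝[>] (0 : ℝ), ∀ n ∈ Ico 2 n0, -(F 1 (1 + h) / 2 + 1 / 200 * h)
        ≤ (n : ℝ) * (p n (3 / 2) (3 / 2 + h) - p n (3 / 2 - h) (3 / 2)) :=
      (eventually_all_finset _).2 fun n hn => fine n (mem_Ico.1 hn).1 _ (by norm_num)
    filter_upwards [h1, hc (3 / 2) (by norm_num) (1 / 200) (by norm_num),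
      small (1 / 12) (by norm_num), small (1 / (400 * K)) (by positivity)] with h h1 h2 h3 h4
    set a := F 1 (1 + h) with ha
    have ha0 : 0 ≤ a := hF0 _ _
    have hh := h3.1
    have hs := (hG (3 / 2) (3 / 2 + h)).sub (hG (3 / 2 - h) (3 / 2))
    have hterm : ∀ n : ℕ, (if n = 0 then -(1 / 200 * h) else 0) + (if n = 1 then a / 2 else 0)
        - (a / 2 + 1 / 200 * h) * (if 2 ≤ n then 1 / ((n : ℝ) * (n + 1)) else 0)
        - K * h * (if n0 ≤ n then 1 / ((n : ℝ) * (n + 1)) else 0)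
        ≤ 1 / ((n : ℝ) + 1) * p n (3 / 2) (3 / 2 + h) - 1 / ((n : ℝ) + 1) * p n (3 / 2 - h) (3 / 2) := by
      intro n
      rcases Nat.lt_or_ge n 2 with hn | hn
      · have hn0' : ¬ n0 ≤ n := by omega
        interval_cases n
        · have := (abs_le.1 h2).1
          simp only [hz, hn0']; norm_num; linarith
        · have h5 := edge 1 le_rfl h (by norm_num; linarith [h3.2])
          norm_num at h5
          simp only [hn0']; norm_num; linarith
      · have hn' : (2 : ℝ) ≤ n := by exact_mod_cast hn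
        rw [if_neg (by omega), if_neg (by omega), if_pos hn, ← mul_sub]
        set D := p n (3 / 2) (3 / 2 + h) - p n (3 / 2 - h) (3 / 2) with hD
        have e1 : 1 / ((n : ℝ) + 1) * D = 1 / ((n : ℝ) * (n + 1)) * (n * D) := by field_simp
        have w0 : (0 : ℝ) < 1 / ((n : ℝ) * (n + 1)) := by positivity
        rw [e1]
        by_cases hc0 : n0 ≤ n
        · rw [if_pos hc0]
          have hN : 1 / ((n : ℝ) + 1) ≤ 1 / 3 :=
            one_div_le_one_div_of_le (by norm_num) (by linarith)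
          have hN0 : (0 : ℝ) < 1 / ((n : ℝ) + 1) := by positivity
          have h5 := hrec n (3 / 2 - h) (3 / 2)
          have h6 := hb (3 / 2 - h - 1 / (n + 1)) (3 / 2 - 1 / (n + 1)) (by linarith [h3.2])
            (by linarith) (by linarith)
          have h7 := hp0 n (3 / 2 - h - 1 / (n + 1)) (3 / 2 - 1 / (n + 1))
          have h8 := mul_nonneg (by linarith : (0 : ℝ) ≤ n) (hp0 n (3 / 2) (3 / 2 + h))
          have h9 : -(K * h) ≤ n * D := by rw [hD, mul_sub]; nlinarith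
          have h10 := mul_le_mul_of_nonneg_left h9 w0.le
          have h11 : 0 ≤ (a / 2 + 1 / 200 * h) * (1 / ((n : ℝ) * (n + 1))) := by positivity
          nlinarith
        · rw [if_neg hc0]
          have h10 := mul_le_mul_of_nonneg_left (h1 n (mem_Ico.2 ⟨hn, by omega⟩)) w0.le
          nlinarith
    have hlim : -(1 / 200 * h) + a / 2 - (a / 2 + 1 / 200 * h) * (1 / 2) - K * h * (1 / n0)
        ≤ G (3 / 2) (3 / 2 + h) - G (3 / 2 - h) (3 / 2) := by
      refine ge_of_tendsto hs.tendsto_sum_nat ?_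
      filter_upwards [eventually_ge_atTop 2] with m hm
      refine le_trans ?_ (sum_le_sum fun n _ => hterm n)
      simp only [sum_sub_distrib, sum_add_distrib, ← mul_sum, sum_ite_eq', mem_range]
      rw [if_pos (by omega), if_pos (by omega)]
      have t1 := tele 2 (by norm_num) m
      have t2 := tele n0 (by omega) m
      have t3 := mul_le_mul_of_nonneg_left t1 (by positivity : 0 ≤ a / 2 + 1 / 200 * h)
      have t4 := mul_le_mul_of_nonneg_left t2 (by positivity : 0 ≤ K * h)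
      push_cast at t3
      linarith
    have g1 := hG1 (3 / 2) (3 / 2 + h)
    have g2 := hG2 (3 / 2 - h) (3 / 2)
    have b1 := hb (3 / 2) (3 / 2 + h) (by norm_num) (by linarith) (by linarith [h3.2])
    have b2 := hb (3 / 2 - h) (3 / 2) (by linarith [h3.2]) (by linarith) (by norm_num)
    have k1 : K * h ≤ 1 / 400 := by
      have := h4.2
      rw [le_div_iff₀ (by positivity)] at this
      linarith
    have k2 : K * (1 / (n0 : ℝ)) ≤ 1 / 200 := by
      rw [mul_one_div, div_le_iff₀ (by linarith)]; linarith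
    have k3 := (abs_le.1 h2).2
    have k4 : h * F (3 / 2) (3 / 2 + h) ≤ h * (1 / 400) :=
      mul_le_mul_of_nonneg_left (by nlinarith) hh.le
    have k5 : h * F (3 / 2 - h) (3 / 2) ≤ h * (1 / 400) :=
      mul_le_mul_of_nonneg_left (by nlinarith) hh.le
    have k6 : K * h * (1 / (n0 : ℝ)) ≤ h * (1 / 200) := by nlinarith
    nlinarith
  have ht : Tendsto (fun M : ℕ => (3 : ℝ) / M) atTop (𝓝[>] 0) := by
    refine tendsto_nhdsWithin_iff.2 ⟨tendsto_const_div_atTop_nhds_zero_nat 3, ?_⟩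
    filter_upwards [eventually_ge_atTop 1] with M hM
    have : (0 : ℝ) < M := by exact_mod_cast hM
    exact Set.mem_Ioi.2 (by positivity)
  obtain ⟨M, h1, h2⟩ := ((ht.eventually all).and (eventually_ge_atTop 1)).exists
  have h3 := hlow M h2
  have : (0 : ℝ) < M := by exact_mod_cast h2
  have h4 : 1 / 5 * (3 / (M : ℝ)) < 2 / 3 / M := by
    rw [show 1 / 5 * (3 / (M : ℝ)) = 3 / 5 / M by ring]
    exact div_lt_div_of_pos_right (by norm_num) this
  linarith

end Pool.Agent.H.MP_37d573_pr
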